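import Pool.Agent.K4H23.UI.Main

/-!
# MP_7e5527_ag: reduction of Q1 to algebraic points and subvarieties over `ℚ̄`

**Framework** (`Pool.Agent.K4H23.UI.Defs`). `ShimuraWorld`: the connected Shimura varieties
`X = Γ \ X⁺`, their complex points with the Zariski topology, products and morphisms, the dimension
of irreducible closed subsets, the closed subsets defined over `ℚ̄`, the special and the weakly special
subvarieties. `IsGeometry`: formal properties of these notions (dimension theory of fibres, closed
sets over `ℚ̄`, images and components of inverse images of (weakly) special subvarieties are (weakly)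
special, their fibres are equidimensional, special points exist). `DawRen` is the finiteness theorem for weakly
optimal subvarieties which follows from the Ax-Schanuel theorem of Mok, Pila and Tsimerman.

Let `P = Γ_M \ X_M⁺`, `p` the image of the Hodge generic point `x` of the problem. The set `Σ_X(p)` of the
problem is `Orb p X`: the `x' ∈ X` such that `(x', p)` lies on a special subvariety of `X × P` of
dimension `dim P`, that is, the Mumford-Tate group of `(x'^ad, p^ad)` is the graph of a homomorphism
`M^ad → M_{x'}^ad`.

No coordinate of `p` is algebraic (`NoAlgebraicCoordinate`) if the closure of `p` over `ℚ̄` lies in no proper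
weakly special subvariety of `P`; equivalently, if `M^ad = M₁ × ⋯ × M_r` is the decomposition into
`ℚ`-simple factors, the image of `p` in `Γ_i \ X_i⁺` is not an algebraic point for any `i`. If `M^ad` is
`ℚ`-simple this is true for all non-algebraic Hodge generic points, so for all but countably many `p`.

**Theorem.**
1. If `a` is algebraic, no coordinate of `s` is algebraic and `(a, s)` is Hodge generic then Q1 for
   `(a, s)` and all complex `V` follows from Q1 for `a` and all `V` defined over `ℚ̄`.
2. So Q1 for all `p` and all complex `V` follows from (hence is equivalent to) Q1 for algebraic `p` and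
   `V` defined over `ℚ̄`. (`Decomposes` is the decomposition of `p` into its algebraic and its
   transcendental coordinates.)

Idea: spread `V` and `s` out over `ℚ̄`. The smallest weakly special subvarieties which contain the closures
of the points of `Σ_X((a, s)) ∩ V` over `ℚ̄` lie in finitely many families (Daw and Ren), and they belong to
points of `Σ_B(a)` in the parameter spaces `B`; by Q1 for `a` these are dense in finitely many weakly special
subvarieties of `B`.
-/

set_option autoImplicit false

namespace Pool.Agent.Results.MP_7e5527_ag.ReductionToAlgebraicPoints

open Set Pool.Agent.K4H23.UI Pool.Agent.K4H23.UI.ShimuraWorld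

theorem result (G : ShimuraWorld) (hG : IsGeometry G) (hDR : DawRen G) :
    -- 1. a pair of an algebraic point and a point without algebraic coordinates
    (∀ (A T : G.Obj) (a : G.Pt A) (s : G.Pt T), IsAlg a → NoAlgebraicCoordinate s →
      HodgeGeneric (G.pair a s) →
      (∀ (X : G.Obj) (V : Set (G.Pt X)), G.OverQbar V → IsIrreducible V → Q1 a V) →
        ∀ (X : G.Obj) (V : Set (G.Pt X)), Q1 (G.pair a s) V) ∧
    -- 2. reduction to algebraic points and subvarieties over `ℚ̄`
    (Decomposes G →
      (∀ (P : G.Obj) (p : G.Pt P), IsAlg p → HodgeGeneric p →
        ∀ (X : G.Obj) (V : Set (G.Pt X)), G.OverQbar V → IsIrreducible V → Q1 p V) →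
      ∀ (P : G.Obj) (p : G.Pt P), HodgeGeneric p → ∀ (X : G.Obj) (V : Set (G.Pt X)), Q1 p V) := by
  refine ⟨?_, ?_⟩
  · intro A T a s halg hs hgen hQ X V
    exact q1_pair hG hDR a s halg hgen hs hQ V
  · intro hdec hQ P p hp X V
    obtain ⟨A, T, a, s, halg, hs, hgen, horb⟩ := hdec P p hp
    have h := q1_pair hG hDR a s halg hgen hs
      (fun X V h1 h2 => hQ A a halg (hodgeGeneric_fst hG hgen) X V h1 h2) V
    unfold Q1 at h ⊢
    rw [horb X]
    exact h

end Pool.Agent.Results.MP_7e5527_ag.ReductionToAlgebraicPoints
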