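import Pool.Agent.K4H23.UI.Main

/-!
# MP_7e5527_ag: Q1 for points without algebraic coordinates

**Framework** (`Pool.Agent.K4H23.UI.Defs`). `ShimuraWorld`: the connected Shimura varieties
`X = Γ \ X⁺`, their complex points with the Zariski topology, products and morphisms, the dimension
of irreducible closed subsets, the closed subsets defined over `ℚ̄`, the special and the weakly special
subvarieties. `IsGeometry`: formal properties of these notions (dimension theory of fibres, closed
sets over `ℚ̄`, images and components of inverse images of (weakly) special subvarieties are (weakly)
special, their fibres are equidimensional, special points exist). `AndreOort` is the theorem of Pila,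
Shankar and Tsimerman, `DawRen` the finiteness theorem for weakly optimal subvarieties which follows
from the Ax-Schanuel theorem of Mok, Pila and Tsimerman.

Let `P = Γ_M \ X_M⁺`, `p` the image of the Hodge generic point `x` of the problem. The set `Σ_X(p)` of the
problem is `Orb p X`: the `x' ∈ X` such that `(x', p)` lies on a special subvariety of `X × P` of
dimension `dim P`, that is, the Mumford-Tate group of `(x'^ad, p^ad)` is the graph of a homomorphism
`M^ad → M_{x'}^ad`.

No coordinate of `p` is algebraic (`NoAlgebraicCoordinate`) if the closure of `p` over `ℚ̄` lies in no proper
weakly special subvariety of `P`; equivalently, if `M^ad = M₁ × ⋯ × M_r` is the decomposition into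
`ℚ`-simple factors, the image of `p` in `Γ_i \ X_i⁺` is not an algebraic point for any `i`. If `M^ad` is
`ℚ`-simple this is true for all non-algebraic Hodge generic points, so for all but countably many `p`.

**Theorem.**
1. If no coordinate of `p` is algebraic then the Zariski closure of every subset of `Σ_X(p)` is the
   union of finitely many weakly special subvarieties of `X`, for every Shimura variety `X`. In
   particular the answer to Q1 is positive for `p` and all complex subvarieties `V` of all `X`.
2. In particular this holds for every non-algebraic `p` such that the only weakly special subvarieties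
   through `p` are `{p}` and `P`.

Idea: let `E = Σ_X(p) ∩ V` be dense in `V` and let `W` be the closure of `V × {p}` over `ℚ̄` in `X × P`. For `x` in
`E` the closure `P_x` of `(x, p)` over `ℚ̄` lies in `W`, and the smallest weakly special subvariety which
contains it is special, of dimension `dim P`. A weakly optimal subvariety `Y_x` of `W` which contains
`P_x` has a special `⟨Y_x⟩`, so these belong to special points `b_x` of the finitely many parameter
spaces `B` of Daw and Ren. By the theorem of Pila, Shankar and Tsimerman the closure of the `b_x` is
special, and counting dimensions in `B × X × P` one finds that `V` is a component of the fibre over `p` of a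
special subvariety of `X × P`.
-/

set_option autoImplicit false

namespace Pool.Agent.Results.MP_7e5527_ag.TranscendentalPoints

open Set Pool.Agent.K4H23.UI Pool.Agent.K4H23.UI.ShimuraWorld

theorem result (G : ShimuraWorld) (hG : IsGeometry G) (hAO : AndreOort G) (hDR : DawRen G) :
    -- 1. points without algebraic coordinates
    (∀ (P : G.Obj) (p : G.Pt P), NoAlgebraicCoordinate p → ∀ X : G.Obj,
      (∀ E : Set (G.Pt X), E ⊆ Orb p X →
        ∃ F : Set (Set (G.Pt X)), F.Finite ∧ (∀ W ∈ F, G.WeaklySpecial W) ∧ closure E = ⋃₀ F) ∧
      ∀ V : Set (G.Pt X), Q1 p V) ∧
    -- 2. the simple case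
    (∀ (P : G.Obj) (p : G.Pt P), ¬ IsAlg p →
      (∀ D : Set (G.Pt P), G.WeaklySpecial D → p ∈ D → D = univ ∨ D = {p}) →
        ∀ (X : G.Obj) (V : Set (G.Pt X)), Q1 p V) := by
  refine ⟨?_, ?_⟩
  · intro P p hp X
    refine ⟨fun E hE => ?_, fun V => q1_of_noAlg hG hAO hDR p hp V⟩
    have h := q1_of_noAlg hG hAO hDR p hp (X := X) E
    rw [Q1, inter_eq_right.mpr hE] at h
    exact h
  · intro P p hp hsimple X V
    exact q1_of_noAlg hG hAO hDR p (noAlg_of_simple hG p hp hsimple) V

end Pool.Agent.Results.MP_7e5527_ag.TranscendentalPoints
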